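import Pool.Agent.Y206.Q.Stm

/-!
# Two ruling lines of one family and one of the other
-/

set_option autoImplicit false

namespace Pool.Agent.Y151.QG

open MvPolynomial Pool.Agent.Helper947.Geo Pool.Agent.Y206.Q Filter Topology

/-- Lines through a point outside of the zero set. -/
theorem eventually_line {d : ℕ} {φ : MvPolynomial (Fin d) ℂ} {P₀ : Fin d → ℂ}
    (h0 : eval P₀ φ ≠ 0) (P₁ : Fin d → ℂ) :
    ∀ᶠ T : ℂ in 𝓝[≠] 0, eval (P₁ + T • (P₀ - P₁)) φ ≠ 0 := by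
  set p := cur P₁ (P₀ - P₁) φ with hp
  have hp0 : p ≠ 0 := by
    intro h
    have h1 := eval_cur P₁ (P₀ - P₁) φ 1
    rw [← hp, h, Polynomial.eval_zero, one_smul, add_sub_cancel] at h1
    exact h0 h1.symm
  have hfin : ({T : ℂ | p.IsRoot T} \ {0}).Finite :=
    (Polynomial.finite_setOfPred_isRoot hp0).subset Set.sdiff_subset
  have hopen : ({T : ℂ | p.IsRoot T} \ {0})ᶜ ∈ 𝓝 (0 : ℂ) :=
    hfin.isClosed.isOpen_compl.mem_nhds (by simp)
  have h2 : ∀ᶠ T : ℂ in 𝓝[≠] 0, T ∈ ({T : ℂ | p.IsRoot T} \ {0})ᶜ :=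
    mem_nhdsWithin_of_mem_nhds hopen
  filter_upwards [h2, self_mem_nhdsWithin] with T hT hT0
  rw [← eval_cur, ← hp]
  intro h
  exact hT ⟨h, hT0⟩

/-- The basis spans. -/
theorem basis4_span {e : Fin 2 → Fin 2 → Fin 4 → ℂ} (he : Basis4 e) (v : Fin 4 → ℂ) :
    ∃ c : Fin 2 → Fin 2 → ℂ, v = c 0 0 • e 0 0 + c 0 1 • e 0 1 + c 1 0 • e 1 0 + c 1 1 • e 1 1 := by
  have hs := LinearIndependent.span_eq_top_of_card_eq_finrank he (by simp)
  have hv : v ∈ Submodule.span ℂ (Set.range fun p : Fin 2 × Fin 2 => e p.1 p.2) := by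
    rw [hs]
    trivial
  obtain ⟨c, hc⟩ := (Submodule.mem_span_range_iff_exists_fun ℂ).1 hv
  refine ⟨fun i j => c (i, j), ?_⟩
  rw [← hc, Fintype.sum_prod_type, Fin.sum_univ_two, Fin.sum_univ_two, Fin.sum_univ_two]
  abel

/-- The sum of two points on two ruling lines. -/
def PP (e : Fin 2 → Fin 2 → Fin 4 → ℂ) (s₁ s₂ u v : Fin 2 → ℂ) : Fin 4 → ℂ :=
  E e s₁ u + E e s₂ v

theorem PP_surj {e : Fin 2 → Fin 2 → Fin 4 → ℂ} (he : Basis4 e) {s₁ s₂ : Fin 2 → ℂ}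
    (hs : dt s₁ s₂ ≠ 0) (P : Fin 4 → ℂ) : ∃ u v, P = PP e s₁ s₂ u v := by
  obtain ⟨c, hc⟩ := basis4_span he P
  refine ⟨fun j => (c 0 j * s₂ 1 - c 1 j * s₂ 0) / dt s₁ s₂,
    fun j => (s₁ 0 * c 1 j - s₁ 1 * c 0 j) / dt s₁ s₂, ?_⟩
  rw [hc]
  have key0 : ∀ j, s₁ 0 * ((c 0 j * s₂ 1 - c 1 j * s₂ 0) / dt s₁ s₂) +
      s₂ 0 * ((s₁ 0 * c 1 j - s₁ 1 * c 0 j) / dt s₁ s₂) = c 0 j := by
    intro j
    field_simp
    unfold dt
    ring
  have key1 : ∀ j, s₁ 1 * ((c 0 j * s₂ 1 - c 1 j * s₂ 0) / dt s₁ s₂) +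
      s₂ 1 * ((s₁ 0 * c 1 j - s₁ 1 * c 0 j) / dt s₁ s₂) = c 1 j := by
    intro j
    field_simp
    unfold dt
    ring
  funext i
  simp only [PP, E, Pi.add_apply, Pi.smul_apply, smul_eq_mul]
  have a00 := key0 0
  have a01 := key0 1
  have a10 := key1 0
  have a11 := key1 1
  linear_combination (-(e 0 0 i)) * a00 - (e 0 1 i) * a01 - (e 1 0 i) * a10 - (e 1 1 i) * a11

theorem PP_line (e : Fin 2 → Fin 2 → Fin 4 → ℂ) (s₁ s₂ u v u' v' : Fin 2 → ℂ) (T : ℂ) :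
    PP e s₁ s₂ u v + T • (PP e s₁ s₂ u' v' - PP e s₁ s₂ u v) =
      PP e s₁ s₂ (u + T • (u' - u)) (v + T • (v' - v)) := by
  funext i
  simp only [PP, E, Pi.add_apply, Pi.sub_apply, Pi.smul_apply, smul_eq_mul]
  ring

/-- The two projections are opposite. -/
theorem projv_PP (e : Fin 2 → Fin 2 → Fin 4 → ℂ) (s₁ s₂ u v : Fin 2 → ℂ) :
    projv (PP e s₁ s₂ u v) (E e s₁ u) = -projv (PP e s₁ s₂ u v) (E e s₂ v) := by
  funext i
  simp only [projv, PP, Pi.add_apply, Pi.neg_apply]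
  ring

theorem eval_smul_hom {d n : ℕ} {H : MvPolynomial (Fin d) ℂ} (hH : H.IsHomogeneous n)
    (c : ℂ) (x : Fin d → ℂ) : eval (c • x) H = c ^ n * eval x H := by
  rw [eval_eq', eval_eq', Finset.mul_sum]
  refine Finset.sum_congr rfl fun m hm => ?_
  have h1 : ∑ i, m i = n := by
    have h2 := hH (mem_support_iff.1 hm)
    simpa [Finsupp.weight_apply, Finsupp.sum_fintype] using h2
  simp only [Pi.smul_apply, smul_eq_mul, mul_pow]
  rw [Finset.prod_mul_distrib, Finset.prod_pow_eq_pow_sum, h1]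
  ring

theorem eval_neg_hom {d n : ℕ} {H : MvPolynomial (Fin d) ℂ} (hH : H.IsHomogeneous n)
    (x : Fin d → ℂ) : eval (-x) H = (-1) ^ n * eval x H := by
  rw [← eval_smul_hom hH, neg_one_smul]

theorem dtm : S_DTM := by
  intro e he n hn s₁ s₂ y hs D₁ D₂ D₃ hD₁ hD₂ hD₃ h1 h2 h3 h4 φ hφ hall
  obtain ⟨P₀, hP₀⟩ : ∃ P₀, eval P₀ φ ≠ 0 := by
    by_contra hc
    push Not at hc
    exact hφ (MvPolynomial.funext fun x => by rw [hc, map_zero])
  obtain ⟨u₀, v₀, rfl⟩ := PP_surj he hs P₀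
  have key : ∀ u v, eval (PP e s₁ s₂ u v) φ ≠ 0 →
      eval s₁ D₃ * eval y D₂ * eval u D₁ = (-1) ^ n * (eval s₂ D₃ * eval y D₁ * eval v D₂) := by
    intro u v huv
    obtain ⟨H, c₁, c₂, c₃, hH, hc₃, e1, e2, e3⟩ := hall _ huv
    have f1 := (e1 y).symm.trans (e3 s₁)
    have f2 := (e2 y).symm.trans (e3 s₂)
    have f3 : c₁ * eval u D₁ = (-1) ^ n * (c₂ * eval v D₂) := by
      rw [← e1, ← e2, projv_PP, eval_neg_hom hH]
    apply mul_left_cancel₀ hc₃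
    calc c₃ * (eval s₁ D₃ * eval y D₂ * eval u D₁)
        = (c₃ * eval s₁ D₃) * eval y D₂ * eval u D₁ := by ring
      _ = (c₁ * eval u D₁) * eval y D₁ * eval y D₂ := by rw [← f1]; ring
      _ = (-1) ^ n * ((c₂ * eval y D₂) * eval y D₁ * eval v D₂) := by rw [f3]; ring
      _ = _ := by rw [f2]; ring
  have hev := eventually_line hP₀ (PP e s₁ s₂ y 0)
  simp only [PP_line] at hev
  have hlim : ∀ (D : MvPolynomial (Fin 2) ℂ) (a b : Fin 2 → ℂ),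
      Tendsto (fun T : ℂ => eval (a + T • (b - a)) D) (𝓝[≠] 0) (𝓝 (eval a D)) := by
    intro D a b
    have hc : Continuous fun T : ℂ => eval (a + T • (b - a)) D := by
      simp only [← eval_cur]
      exact Polynomial.continuous _
    have h := (hc.tendsto 0).mono_left (nhdsWithin_le_nhds (s := {0}ᶜ))
    simpa using h
  have hL : Tendsto (fun T : ℂ => eval s₁ D₃ * eval y D₂ * eval (y + T • (u₀ - y)) D₁) (𝓝[≠] 0)
      (𝓝 (eval s₁ D₃ * eval y D₂ * eval y D₁)) := (hlim D₁ y u₀).const_mul _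
  have hR : Tendsto (fun T : ℂ => (-1) ^ n * (eval s₂ D₃ * eval y D₁ *
      eval ((0 : Fin 2 → ℂ) + T • (v₀ - 0)) D₂)) (𝓝[≠] 0)
      (𝓝 ((-1) ^ n * (eval s₂ D₃ * eval y D₁ * eval 0 D₂))) :=
    ((hlim D₂ 0 v₀).const_mul _).const_mul _
  have heq := tendsto_nhds_unique (hL.congr' (hev.mono fun T hT => key _ _ hT)) hR
  have h0 : eval (0 : Fin 2 → ℂ) D₂ = 0 := by
    have h := eval_smul_hom hD₂ 0 (0 : Fin 2 → ℂ)
    rwa [smul_zero, zero_pow (by omega), zero_mul] at h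
  rw [h0, mul_zero, mul_zero] at heq
  exact mul_ne_zero (mul_ne_zero h3 h2) h1 heq

end Pool.Agent.Y151.QG
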