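import Pool.Agent.Y151.QG.Dtm

/-!
# Geproci sets of type `(a, b)`, `a, b ≥ 3`, on a smooth quadric are nondegenerate
-/

set_option autoImplicit false

namespace Pool.Agent.Y151.QG

open MvPolynomial Pool.Agent.Helper947.Geo Pool.Agent.Y206.Q Filter Topology

/-- The projection from `P`, restricted to a plane, has a right inverse up to a factor. -/
theorem lam_projv (ξ P x : Fin 4 → ℂ) (hx : ξ ⬝ᵥ x = 0) (v : Fin 4 → ℂ)
    (hv : ∀ i : Fin 3, v i.castSucc = projv P x i) (hv3 : v (Fin.last 3) = 0) :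
    (ξ ⬝ᵥ P) • v - (ξ ⬝ᵥ v) • P = ((ξ ⬝ᵥ P) * P (Fin.last 3)) • x := by
  have h1 : v = P (Fin.last 3) • x - x (Fin.last 3) • P := by
    funext i
    refine Fin.lastCases ?_ (fun j => ?_) i
    · rw [hv3]
      simp only [Pi.sub_apply, Pi.smul_apply, smul_eq_mul]
      ring
    · rw [hv j]
      simp only [projv, Pi.sub_apply, Pi.smul_apply, smul_eq_mul]
  have h2 : ξ ⬝ᵥ v = -(x (Fin.last 3) * (ξ ⬝ᵥ P)) := by
    rw [h1, dotProduct_sub, dotProduct_smul, dotProduct_smul, hx, smul_zero, zero_sub,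
      smul_eq_mul]
  rw [h2, h1]
  funext i
  simp only [Pi.sub_apply, Pi.smul_apply, smul_eq_mul]
  ring

/-- The embedding of `ℂ^3` in `ℂ^4`. -/
noncomputable def emb : (Fin 3 → ℂ) →ₗ[ℂ] (Fin 4 → ℂ) where
  toFun y := Fin.snoc (α := fun _ => ℂ) y 0
  map_add' y y' := by
    funext i
    refine Fin.lastCases ?_ (fun j => ?_) i
    · rw [Pi.add_apply, Fin.snoc_last, Fin.snoc_last, Fin.snoc_last, add_zero]
    · rw [Pi.add_apply, Fin.snoc_castSucc, Fin.snoc_castSucc, Fin.snoc_castSucc, Pi.add_apply]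
  map_smul' c y := by
    funext i
    refine Fin.lastCases ?_ (fun j => ?_) i
    · rw [Pi.smul_apply, Fin.snoc_last, Fin.snoc_last, smul_zero]
    · rw [Pi.smul_apply, Fin.snoc_castSucc, Fin.snoc_castSucc, Pi.smul_apply, RingHom.id_apply]

theorem emb_cast (y : Fin 3 → ℂ) (i : Fin 3) : emb y i.castSucc = y i :=
  Fin.snoc_castSucc (α := fun _ => ℂ) 0 y i

theorem emb_last (y : Fin 3 → ℂ) : emb y (Fin.last 3) = 0 :=
  Fin.snoc_last (α := fun _ => ℂ) 0 y

/-- The linear map `y ↦ (ξ·P) (y, 0) - (ξ·(y,0)) P`. -/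
noncomputable def lam (ξ P : Fin 4 → ℂ) : (Fin 3 → ℂ) →ₗ[ℂ] (Fin 4 → ℂ) where
  toFun y := (ξ ⬝ᵥ P) • emb y - (ξ ⬝ᵥ emb y) • P
  map_add' y y' := by
    rw [map_add, dotProduct_add]
    module
  map_smul' c y := by
    rw [map_smul, dotProduct_smul, RingHom.id_apply, smul_eq_mul]
    module

theorem lam_apply (ξ P x : Fin 4 → ℂ) (hx : ξ ⬝ᵥ x = 0) :
    lam ξ P (projv P x) = ((ξ ⬝ᵥ P) * P (Fin.last 3)) • x :=
  lam_projv ξ P x hx (emb (projv P x)) (emb_cast _) (emb_last _)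

theorem lin_sum {d : ℕ} (f : (Fin d → ℂ) →ₗ[ℂ] ℂ) (y : Fin d → ℂ) :
    f y = (fun m => f (Pi.single m 1)) ⬝ᵥ y := by
  classical
  rw [dotProduct, LinearMap.pi_apply_eq_sum_univ f y]
  refine Finset.sum_congr rfl fun m _ => ?_
  rw [smul_eq_mul, mul_comm]
  congr 2
  funext j
  rw [Pi.single_apply]
  simp only [eq_comm]

/-- A linear functional as a polynomial. -/
theorem eval_lf_lin {d : ℕ} (f : (Fin d → ℂ) →ₗ[ℂ] ℂ) (y : Fin d → ℂ) :
    eval y (lf fun m => f (Pi.single m 1)) = f y := by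
  rw [eval_lf, lin_sum f y]

/-- A polynomial of degree two in an ideal generated by forms of degree at least three. -/
theorem quad_zero {a b : ℕ} (ha : 3 ≤ a) (hb : 3 ≤ b) {F G g : MvPolynomial (Fin 3) ℂ}
    (hF : F.IsHomogeneous a) (hG : G.IsHomogeneous b) (hg : g ∈ Ideal.span {F, G})
    (hg2 : ∀ (T : ℂ) y, eval (T • y) g = T ^ 2 * eval y g) (y : Fin 3 → ℂ) : eval y g = 0 := by
  obtain ⟨p, q, hpq⟩ := Ideal.mem_span_pair.1 hg
  have key : ∀ T : ℂ, T ≠ 0 → eval y g = T ^ (a - 2) * (eval (T • y) p * eval y F) +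
      T ^ (b - 2) * (eval (T • y) q * eval y G) := by
    intro T hT
    have h1 := hg2 T y
    rw [← hpq, map_add, map_mul, map_mul, eval_smul_hom hF, eval_smul_hom hG, hpq] at h1
    have h2 : T ^ a = T ^ 2 * T ^ (a - 2) := by rw [← pow_add]; congr 1; omega
    have h3 : T ^ b = T ^ 2 * T ^ (b - 2) := by rw [← pow_add]; congr 1; omega
    rw [h2, h3] at h1
    apply mul_left_cancel₀ (pow_ne_zero 2 hT)
    rw [← h1]
    ring
  have hc : Continuous fun T : ℂ => T ^ (a - 2) * (eval (T • y) p * eval y F) +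
      T ^ (b - 2) * (eval (T • y) q * eval y G) := by
    have h1 : Continuous fun T : ℂ => eval (T • y) p :=
      (MvPolynomial.continuous_eval p).comp (continuous_id.smul continuous_const)
    have h2 : Continuous fun T : ℂ => eval (T • y) q :=
      (MvPolynomial.continuous_eval q).comp (continuous_id.smul continuous_const)
    fun_prop
  have h1 := (hc.tendsto 0).mono_left (nhdsWithin_le_nhds (s := {(0 : ℂ)}ᶜ))
  rw [zero_pow (by omega), zero_pow (by omega), zero_mul, zero_mul, add_zero] at h1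
  have h2 : Tendsto (fun _ : ℂ => eval y g) (𝓝[≠] (0 : ℂ)) (𝓝 0) := by
    refine h1.congr' ?_
    filter_upwards [self_mem_nhdsWithin] with T hT
    exact (key T hT).symm
  exact tendsto_nhds_unique tendsto_const_nhds h2

theorem ndg : S_NDG := by
  classical
  intro e he K _ s t a b ha hb hgep
  by_contra hne
  obtain ⟨f, hf0, hf⟩ := Submodule.exists_le_ker_of_lt_top _ (lt_top_iff_ne_top.2 hne)
  set ξ : Fin 4 → ℂ := fun i => f (Pi.single i 1) with hξ
  have hfξ : ∀ x, f x = ξ ⬝ᵥ x := fun x => lin_sum f x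
  have hξz : ∀ k, ξ ⬝ᵥ E e (s k) (t k) = 0 := fun k => by
    rw [← hfξ]
    exact hf (Submodule.subset_span ⟨k, rfl⟩)
  have hξ0 : ξ ≠ 0 := by
    intro h
    apply hf0
    ext i
    have := congrFun h i
    simpa [hξ] using this
  obtain ⟨φ, hφ, hall⟩ := hgep
  -- the point
  have hlf : lf ξ ≠ 0 := by
    intro h
    obtain ⟨i, hi⟩ := Function.ne_iff.1 hξ0
    have h1 := eval_lf ξ (Pi.single i 1)
    rw [h, map_zero, dotProduct_single, mul_one] at h1
    exact hi h1.symm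
  obtain ⟨P, hP⟩ : ∃ P, eval P (φ * X (Fin.last 3) * lf ξ) ≠ 0 := by
    by_contra hc
    push Not at hc
    exact mul_ne_zero (mul_ne_zero hφ (X_ne_zero _)) hlf
      (MvPolynomial.funext fun x => by rw [hc, map_zero])
  rw [map_mul, map_mul, eval_X, eval_lf] at hP
  have hPφ : eval P φ ≠ 0 := left_ne_zero_of_mul (left_ne_zero_of_mul hP)
  have hP3 : P (Fin.last 3) ≠ 0 := right_ne_zero_of_mul (left_ne_zero_of_mul hP)
  have hPξ : ξ ⬝ᵥ P ≠ 0 := right_ne_zero_of_mul hP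
  obtain ⟨F, G, hF, hG, hvan⟩ := hall P hPφ
  -- coordinates
  let Bs : Module.Basis (Fin 2 × Fin 2) ℂ (Fin 4 → ℂ) :=
    basisOfLinearIndependentOfCardEqFinrank he (by simp)
  have hBs : ∀ i j, Bs (i, j) = e i j := fun i j =>
    congrFun (coe_basisOfLinearIndependentOfCardEqFinrank (K := ℂ)
      (b := fun p : Fin 2 × Fin 2 => e p.1 p.2) he (by simp)) (i, j)
  let co : Fin 2 → Fin 2 → (Fin 4 → ℂ) →ₗ[ℂ] ℂ := fun i j => Bs.coord (i, j)
  have hco : ∀ i j k l, co i j (e k l) = if i = k ∧ j = l then 1 else 0 := by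
    intro i j k l
    show Bs.coord (i, j) (e k l) = _
    rw [← hBs k l, Module.Basis.coord_apply, Module.Basis.repr_self, Finsupp.single_apply]
    by_cases h : (k, l) = (i, j)
    · rw [if_pos h, if_pos ⟨(congrArg Prod.fst h).symm, (congrArg Prod.snd h).symm⟩]
    · rw [if_neg h, if_neg]
      rintro ⟨rfl, rfl⟩
      exact h rfl
  let dd : (Fin 4 → ℂ) → ℂ := fun x => co 0 0 x * co 1 1 x - co 0 1 x * co 1 0 x
  have hddE : ∀ s t, dd (E e s t) = 0 := by
    intro s t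
    show co 0 0 (E e s t) * co 1 1 (E e s t) - co 0 1 (E e s t) * co 1 0 (E e s t) = 0
    unfold E
    simp only [map_add, map_smul, hco, smul_eq_mul]
    simp
    ring
  have hdds : ∀ (c : ℂ) x, dd (c • x) = c ^ 2 * dd x := by
    intro c x
    show co 0 0 (c • x) * co 1 1 (c • x) - co 0 1 (c • x) * co 1 0 (c • x) =
      c ^ 2 * (co 0 0 x * co 1 1 x - co 0 1 x * co 1 0 x)
    simp only [map_smul, smul_eq_mul]
    ring
  -- the quadric
  let L : Fin 2 → Fin 2 → MvPolynomial (Fin 3) ℂ := fun i j =>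
    lf fun m => (co i j ∘ₗ lam ξ P) (Pi.single m 1)
  have hL : ∀ i j y, eval y (L i j) = co i j (lam ξ P y) := fun i j y => eval_lf_lin _ y
  let g : MvPolynomial (Fin 3) ℂ := L 0 0 * L 1 1 - L 0 1 * L 1 0
  have hgev : ∀ y, eval y g = dd (lam ξ P y) := by
    intro y
    show eval y (L 0 0 * L 1 1 - L 0 1 * L 1 0) = _
    rw [map_sub, map_mul, map_mul, hL, hL, hL, hL]
  have hgmem : g ∈ Ideal.span {F, G} := by
    rw [hvan g]
    intro k c
    rw [hgev, map_smul, hdds, lam_apply _ _ _ (hξz k), hdds, hddE, mul_zero, mul_zero]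
  have hg0 : ∀ y, eval y g = 0 := quad_zero ha hb hF hG hgmem (by
    intro T y
    rw [hgev, hgev, map_smul, hdds])
  have hdd0 : ∀ x, ξ ⬝ᵥ x = 0 → dd x = 0 := by
    intro x hx
    have h1 := hg0 (projv P x)
    rw [hgev, lam_apply _ _ _ hx, hdds] at h1
    exact (mul_eq_zero.1 h1).resolve_left (pow_ne_zero 2 (mul_ne_zero hPξ hP3))
  -- the contradiction
  have key : ∀ c : Fin 2 → Fin 2 → ℂ, c 0 0 * (ξ ⬝ᵥ e 0 0) + c 0 1 * (ξ ⬝ᵥ e 0 1) +
      c 1 0 * (ξ ⬝ᵥ e 1 0) + c 1 1 * (ξ ⬝ᵥ e 1 1) = 0 → c 0 0 * c 1 1 - c 0 1 * c 1 0 = 0 := by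
    intro c hc
    have h1 := hdd0 (c 0 0 • e 0 0 + c 0 1 • e 0 1 + c 1 0 • e 1 0 + c 1 1 • e 1 1) (by
      rw [dotProduct_add, dotProduct_add, dotProduct_add, dotProduct_smul, dotProduct_smul,
        dotProduct_smul, dotProduct_smul]
      simpa [smul_eq_mul] using hc)
    have h2 : dd (c 0 0 • e 0 0 + c 0 1 • e 0 1 + c 1 0 • e 1 0 + c 1 1 • e 1 1) =
        c 0 0 * c 1 1 - c 0 1 * c 1 0 := by
      show co 0 0 _ * co 1 1 _ - co 0 1 _ * co 1 0 _ = _
      simp only [map_add, map_smul, hco, smul_eq_mul]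
      simp
    rwa [h2] at h1
  set x00 := ξ ⬝ᵥ e 0 0
  set x01 := ξ ⬝ᵥ e 0 1
  set x10 := ξ ⬝ᵥ e 1 0
  set x11 := ξ ⬝ᵥ e 1 1
  have k1 : ∀ p q r w : ℂ, p * x00 + q * x01 + r * x10 + w * x11 = 0 → p * w - q * r = 0 := by
    intro p q r w h
    have := key ![![p, q], ![r, w]] (by simpa using h)
    simpa using this
  have z01 : x01 = 0 := by
    have h1 := k1 x01 (-x00 - x11) 0 x01 (by ring)
    have h2 : x01 * x01 = 0 := by linear_combination h1
    exact mul_self_eq_zero.1 h2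
  have z10 : x10 = 0 := by
    have h1 := k1 x10 0 (-x00 - x11) x10 (by ring)
    have h2 : x10 * x10 = 0 := by linear_combination h1
    exact mul_self_eq_zero.1 h2
  have z00 : x00 = 0 := by
    have h1 := k1 (-x01 - x10) x00 x00 0 (by ring)
    have h2 : x00 * x00 = 0 := by linear_combination -h1
    exact mul_self_eq_zero.1 h2
  have z11 : x11 = 0 := by
    have h1 := k1 0 x11 x11 (-x01 - x10) (by ring)
    have h2 : x11 * x11 = 0 := by linear_combination -h1
    exact mul_self_eq_zero.1 h2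
  apply hf0
  refine Bs.ext fun p => ?_
  obtain ⟨i, j⟩ := p
  rw [hBs, LinearMap.zero_apply, hfξ]
  fin_cases i <;> fin_cases j
  · exact z00
  · exact z01
  · exact z10
  · exact z11

end Pool.Agent.Y151.QG
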